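import Pool.Agent.Helper92.Ru.GoalsR

/-! Packet DetIndex (R9) of MP_d1d051_nt. -/

set_option autoImplicit false

open MvPolynomial

namespace Pool.Agent.Helper18.Ru

open Pool.Agent.Helper92.Ru

/-- weight of an exponent -/
noncomputable def wt {σ : Type} [Fintype σ] (r : σ → ℕ) (e : σ →₀ ℕ) : ℝ :=
  ∑ h, (e h : ℝ) / (r h : ℝ)

theorem wt_add {σ : Type} [Fintype σ] (r : σ → ℕ) (e e' : σ →₀ ℕ) :
    wt r (e + e') = wt r e + wt r e' := by
  unfold wt
  rw [← Finset.sum_add_distrib]
  refine Finset.sum_congr rfl fun h _ => ?_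
  rw [Finsupp.add_apply, Nat.cast_add, add_div]

theorem wt_nonneg {σ : Type} [Fintype σ] (r : σ → ℕ) (e : σ →₀ ℕ) : 0 ≤ wt r e :=
  Finset.sum_nonneg fun _ _ => div_nonneg (Nat.cast_nonneg _) (Nat.cast_nonneg _)

/-- all monomials have weight at least `c` -/
def WGe {k : Type} [Field k] {σ : Type} [Fintype σ] (r : σ → ℕ) (c : ℝ)
    (f : MvPolynomial σ k) : Prop :=
  ∀ e, coeff e f ≠ 0 → c ≤ wt r e

theorem WGe.add {k : Type} [Field k] {σ : Type} [Fintype σ] {r : σ → ℕ} {c : ℝ}
    {f g : MvPolynomial σ k} (hf : WGe r c f) (hg : WGe r c g) : WGe r c (f + g) := by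
  intro e he
  by_cases h : coeff e f = 0
  · apply hg e
    intro h'
    apply he
    rw [coeff_add, h, h', add_zero]
  · exact hf e h

theorem WGe.zero {k : Type} [Field k] {σ : Type} [Fintype σ] {r : σ → ℕ} {c : ℝ} :
    WGe r c (0 : MvPolynomial σ k) := by
  intro e he
  exact absurd (coeff_zero e) he

theorem WGe.neg {k : Type} [Field k] {σ : Type} [Fintype σ] {r : σ → ℕ} {c : ℝ}
    {f : MvPolynomial σ k} (hf : WGe r c f) : WGe r c (-f) := by
  intro e he
  apply hf e
  intro h
  apply he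
  rw [coeff_neg, h, neg_zero]

theorem WGe.mul {k : Type} [Field k] {σ : Type} [Fintype σ] [DecidableEq σ] {r : σ → ℕ} {a b : ℝ}
    {f g : MvPolynomial σ k} (hf : WGe r a f) (hg : WGe r b g) : WGe r (a + b) (f * g) := by
  intro e he
  rw [coeff_mul] at he
  obtain ⟨x, hx, hne⟩ := Finset.exists_ne_zero_of_sum_ne_zero he
  rw [← Finset.HasAntidiagonal.mem_antidiagonal.mp hx, wt_add]
  exact add_le_add (hf _ (left_ne_zero_of_mul hne)) (hg _ (right_ne_zero_of_mul hne))

theorem WGe.one {k : Type} [Field k] {σ : Type} [Fintype σ] [DecidableEq σ] {r : σ → ℕ} :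
    WGe r 0 (1 : MvPolynomial σ k) := fun e _ => wt_nonneg r e

theorem WGe.prod {k : Type} [Field k] {σ : Type} [Fintype σ] [DecidableEq σ] {r : σ → ℕ}
    {ι : Type} (s : Finset ι) (c : ι → ℝ) (f : ι → MvPolynomial σ k)
    (h : ∀ i ∈ s, WGe r (c i) (f i)) : WGe r (∑ i ∈ s, c i) (∏ i ∈ s, f i) := by
  classical
  induction s using Finset.induction_on with
  | empty => simpa using WGe.one (k := k) (r := r)
  | insert a s ha ih =>
    rw [Finset.sum_insert ha, Finset.prod_insert ha]
    exact (h a (Finset.mem_insert_self a s)).mul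
      (ih fun i hi => h i (Finset.mem_insert_of_mem hi))

theorem WGe.sum {k : Type} [Field k] {σ : Type} [Fintype σ] {r : σ → ℕ} {c : ℝ}
    {ι : Type} (s : Finset ι) (f : ι → MvPolynomial σ k)
    (h : ∀ i ∈ s, WGe r c (f i)) : WGe r c (∑ i ∈ s, f i) := by
  classical
  induction s using Finset.induction_on with
  | empty => simpa using WGe.zero (k := k) (r := r) (c := c)
  | insert a s ha ih =>
    rw [Finset.sum_insert ha]
    exact (h a (Finset.mem_insert_self a s)).add
      (ih fun i hi => h i (Finset.mem_insert_of_mem hi))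

theorem detIndex : HasseBasic → DetIndex := by
  intro HB k _ _ σ _ _ s r ξ θ c p M hp hM
  have hP : WGe r θ (shiftP ξ p) := fun e he => hp e (mem_support_iff.mpr he)
  have hent : ∀ i j, WGe r (max 0 (θ - c j)) (shiftP ξ (hasse (M i j) p)) := by
    intro i j e he
    rw [((HB k σ (M i j) p).2.2.1 ξ)] at he
    rw [((HB k σ (M i j) (shiftP ξ p)).1 e)] at he
    have h1 := hP _ (right_ne_zero_of_mul he)
    rw [wt_add] at h1
    have h2 : wt r (M i j) ≤ c j := hM i j
    exact max_le (wt_nonneg r e) (by linarith)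
  have hdet : shiftP ξ (Matrix.of (fun i j => hasse (M i j) p)).det =
      ∑ τ : Equiv.Perm (Fin s), Equiv.Perm.sign τ •
        ∏ j, shiftP ξ (hasse (M (τ j) j) p) := by
    rw [Matrix.det_apply, map_sum]
    refine Finset.sum_congr rfl fun τ _ => ?_
    rw [Units.smul_def, Units.smul_def, map_zsmul, map_prod]
    rfl
  intro e he
  rw [mem_support_iff, hdet] at he
  have key : WGe r (∑ j, max 0 (θ - c j)) (∑ τ : Equiv.Perm (Fin s), Equiv.Perm.sign τ •
        ∏ j, shiftP ξ (hasse (M (τ j) j) p)) := by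
    refine WGe.sum _ _ fun τ _ => ?_
    have h0 := WGe.prod (r := r) Finset.univ (fun j => max 0 (θ - c j))
      (fun j => shiftP ξ (hasse (M (τ j) j) p)) (fun j _ => hent (τ j) j)
    rcases Int.units_eq_one_or (Equiv.Perm.sign τ) with h | h
    · rw [h, one_smul]; exact h0
    · rw [h, Units.smul_def, Units.val_neg, Units.val_one, neg_smul, one_smul]
      exact h0.neg
  exact key e he

end Pool.Agent.Helper18.Ru
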