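import Pool.Agent.Helper92.Ru.GoalsS

/-! Packet S20 (SSTX) of MP_d1d051_nt: the projective form of the Subspace theorem from the
form for `S`-integral points. -/

set_option autoImplicit false

open NumberField

namespace Pool.Agent.Helper18.Ru

open Pool.Agent.Helper92.Ru

theorem sstx (hBal : Bal) (hS : SSTint) : SSTX := by
  intro k _ _ T N hN A hA c hc C0 hC0
  classical
  obtain ⟨CB, hCB, hbal⟩ := hBal k T
  set s : ℕ := Fintype.card (SP k T) with hs
  have hsne : Nonempty (SP k T) := ⟨Sum.inl (Classical.arbitrary (InfinitePlace k))⟩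
  have hs1 : 1 ≤ s := Fintype.card_pos
  have hsR : (0 : ℝ) < s := by exact_mod_cast hs1
  have hNR : (0 : ℝ) < N := by exact_mod_cast hN
  set D : ℝ := (∑ v, ∑ i, c v i) - N with hD
  have hD0 : 0 < D := by rw [hD]; linarith
  set η : ℝ := D / (2 * s * N) with hη
  have hη0 : 0 < η := by positivity
  have hsum : ∑ v : SP k T, ∑ i : Fin N, (1 / (s : ℝ) - c v i + η) < 0 := by
    have h1 : ∑ v : SP k T, ∑ i : Fin N, (1 / (s : ℝ) - c v i + η)
        = (s : ℝ) * (N * (1 / s)) - (∑ v, ∑ i, c v i) + s * (N * η) := by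
      simp only [Finset.sum_add_distrib, Finset.sum_sub_distrib, Finset.sum_const,
        Finset.card_univ, Fintype.card_fin, nsmul_eq_mul]
      rw [← hs]
    rw [h1]
    have h2 : (s : ℝ) * (N * (1 / s)) = N := by field_simp
    have h3 : (s : ℝ) * (N * η) = D / 2 := by rw [hη]; field_simp
    rw [h2, h3, hD]
    linarith
  obtain ⟨Q0, F, hQ0, hF, hFx⟩ := hS k T N hN A hA (fun v i => 1 / (s : ℝ) - c v i + η) hsum
  set C1 : ℝ := max 1 CB with hC1
  have hC11 : 1 ≤ C1 := le_max_left _ _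
  have hC1B : CB ≤ C1 ^ s := (le_max_right 1 CB).trans (le_self_pow₀ hC11 (by omega))
  have hC1p : 0 < C1 := by linarith
  refine ⟨max Q0 ((C0 * C1) ^ (1 / η)), F, hF, ?_⟩
  intro x X z H hX hz hzT hxw hH hH0 hxv
  have hHQ : Q0 ≤ H := (le_max_left _ _).trans hH0
  have hHp : 0 < H := by linarith
  have hHη : C0 * C1 ≤ H ^ η := by
    have h1 : (C0 * C1) ^ (1 / η) ≤ H := (le_max_right _ _).trans hH0
    have h2 : ((C0 * C1) ^ (1 / η)) ^ η ≤ H ^ η :=
      Real.rpow_le_rpow (by positivity) h1 hη0.le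
    rwa [← Real.rpow_mul (by positivity), one_div, inv_mul_cancel₀ hη0.ne', Real.rpow_one] at h2
  have hy : ∀ v : SP k T, 0 < C1 * (X v)⁻¹ * H ^ (1 / (s : ℝ)) := fun v => by
    have := hX v
    positivity
  have hprod : CB ≤ (∏ v : SP k T, (C1 * (X v)⁻¹ * H ^ (1 / (s : ℝ)))) *
      ∏ᶠ w : FinitePlace k, (qw w : ℝ) ^ (-z) w := by
    have h1 : ∏ᶠ w : FinitePlace k, (qw w : ℝ) ^ (-z) w =
        (∏ᶠ w : FinitePlace k, (qw w : ℝ) ^ z w)⁻¹ := by
      rw [← finprod_inv_distrib]
      apply finprod_congr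
      intro w
      rw [Pi.neg_apply, zpow_neg]
    rw [h1, Finset.prod_mul_distrib, Finset.prod_mul_distrib, Finset.prod_inv_distrib]
    simp only [Finset.prod_const, Finset.card_univ]
    rw [← hs, ← Real.rpow_natCast (H ^ (1 / (s : ℝ))) s, ← Real.rpow_mul hHp.le,
      one_div_mul_cancel hsR.ne', Real.rpow_one]
    have hPX : 0 < ∏ v, X v := Finset.prod_pos fun v _ => hX v
    have hPq : (∏ᶠ w : FinitePlace k, (qw w : ℝ) ^ z w) ≠ 0 := by
      intro h0
      rw [h0, mul_zero] at hH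
      linarith
    have h2 : C1 ^ s * (∏ v, X v)⁻¹ * H * (∏ᶠ w : FinitePlace k, (qw w : ℝ) ^ z w)⁻¹ = C1 ^ s := by
      rw [hH]
      field_simp
    rw [h2]
    exact hC1B
  obtain ⟨α, hα, hα1, hα2⟩ := hbal (-z) (by
      have : (-z).support = z.support := by
        ext w; simp
      rw [this]; exact hz) (fun w hw => by simp [hzT w hw])
    (fun v => C1 * (X v)⁻¹ * H ^ (1 / (s : ℝ))) hy hprod
  have hbox : InBox A (wQ H (fun v i => 1 / (s : ℝ) - c v i + η)) (α • x) := by
    refine ⟨?_, ?_⟩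
    · intro i w hw
      rw [Pi.smul_apply, smul_eq_mul, map_mul]
      have h1 := hα2 w hw
      have h2 := hxw w hw i
      rw [Pi.neg_apply, zpow_neg] at h1
      calc w α * w (x i) ≤ ((qw w : ℝ) ^ z w)⁻¹ * (qw w : ℝ) ^ z w := by
            apply mul_le_mul h1 h2 (apply_nonneg w _)
            exact (apply_nonneg w α).trans h1
        _ ≤ 1 := inv_mul_le_one
    · intro v i
      rw [Matrix.mulVec_smul, Pi.smul_apply, smul_eq_mul, nS_mul]
      have h1 := hα1 v
      have h2 := hxv v i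
      have hXv := hX v
      calc nS v α * nS v ((A v).mulVec x i)
          ≤ (C1 * (X v)⁻¹ * H ^ (1 / (s : ℝ))) * (C0 * X v * H ^ (-c v i)) := by
            apply mul_le_mul h1 h2 (nS_nonneg v _) (hy v).le
        _ = (C0 * C1) * (H ^ (1 / (s : ℝ)) * H ^ (-c v i)) := by
            field_simp
        _ ≤ H ^ η * (H ^ (1 / (s : ℝ)) * H ^ (-c v i)) := by
            apply mul_le_mul_of_nonneg_right hHη
            positivity
        _ = wQ H (fun v i => 1 / (s : ℝ) - c v i + η) v i := by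
            unfold wQ
            rw [← Real.rpow_add hHp, ← Real.rpow_add hHp]
            congr 1
            ring
  obtain ⟨W, hW, hxW⟩ := hFx H hHQ (α • x) hbox
  refine ⟨W, hW, ?_⟩
  have := W.smul_mem α⁻¹ hxW
  rwa [smul_smul, inv_mul_cancel₀ hα, one_smul] at this

end Pool.Agent.Helper18.Ru
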